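import Pool.Agent.H97.HV.Targets2

/-!
# MP_e37c09_lc: reflection of a positive class to a limit ordinal
-/

open Ordinal Cardinal Order Set
open scoped ZFSet

universe u

namespace Pool.Agent.H75.HV

open _root_.HD HD.PRK HD.HV

/-- LCR2. Reflection of a positive class to a limit ordinal. (In `T_LCR` the ordinal `ρ0` may be a
successor, and then everything is positive at `ρ0`.) -/
def T_LCR2 : Prop := ∀ δ η θ j K μ ρ F, SolX.{u} δ η θ j K μ ρ F → ∀ n < K.ord, HnV μ K F n →
  ∀ x ∈ V_ η, PcV μ K.ord F x n →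
    ∃ ρ0 < K.ord, IsSuccLimit ρ0 ∧ PcV μ ρ0 F x n ∧ CnV δ μ ρ0 F n

end Pool.Agent.H75.HV
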