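import Pool.Agent.H97.PRK.All
import Pool.Agent.H75.HV.LCR2

/-!
# Row LCB of the board hov: fewer than `δ` positive classes
-/

open Ordinal Cardinal Order Set
open scoped ZFSet

universe u

namespace Pool.Agent.H75.HV

open _root_.HD HD.PRK HD.HV

theorem agv_refl (F x : ZFSet.{u}) (i : Ordinal.{u}) : AgV F x x i := fun _ _ _ => Iff.rfl

theorem agv_symm {F x y : ZFSet.{u}} {i : Ordinal.{u}} (h : AgV F x y i) : AgV F y x i :=
  fun k hk a => (h k hk a).symm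

theorem agv_trans {F x y z : ZFSet.{u}} {i : Ordinal.{u}} (h : AgV F x y i) (h' : AgV F y z i) :
    AgV F x z i := fun k hk a => (h k hk a).trans (h' k hk a)

theorem posx_mono {μ ρ : Ordinal.{u}} {P Q : ZFSet.{u} → Prop} (h : PosX μ ρ P)
    (hPQ : ∀ x, P x → Q x) : PosX μ ρ Q := by
  intro C hC
  obtain ⟨x, hx, hp⟩ := h C hC
  exact ⟨x, hx, hPQ x hp⟩

theorem pcv_imp {μ ρ : Ordinal.{u}} {F x y : ZFSet.{u}} {n : Ordinal.{u}} (h : AgV F x y n)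
    (hp : PcV μ ρ F x n) : PcV μ ρ F y n := posx_mono hp fun _ hz => agv_trans hz h

theorem clb_univ {ρ : Ordinal.{u}} (h : IsSuccLimit ρ) : Clb ρ univ :=
  ⟨fun a ha => ⟨succ a, h.succ_lt ha, lt_succ a, mem_univ _⟩, fun _ _ _ _ => mem_univ _⟩

theorem dz_lim : DZ.{u} fun v => (v 0).IsOrdinal ∧ IsSuccLimit (v 0).rank := by
  have h1 : DZ.{u} fun v => ∃ a ∈ v 0, (fun _ _ => True) a v := by
    refine DZ.exMem (R := fun _ _ => True) 0 (DZ.cst True)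
  have h2 : DZ.{u} fun v => ∀ a ∈ v 0, ∃ b ∈ v 0, a ∈ b := by
    refine DZ.allMem (R := fun a v => ∃ b ∈ v 0, a ∈ b) 0 ?_
    refine DZ.exMem (R := fun b v => v 0 ∈ b) 1 ?_
    exact DZ.mem 1 0
  refine ((DZ.ord 0).and (h1.and h2)).congr fun v => ?_
  refine and_congr_right fun h0 => ?_
  obtain ⟨r, hr⟩ := ord_of h0
  rw [hr, rank_toZFSet]
  constructor
  · intro h
    refine ⟨⟨(0 : Ordinal.{u}).toZFSet, toZFSet_mem_toZFSet_iff.2 h.bot_lt, trivial⟩,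
      fun a ha => ?_⟩
    obtain ⟨a, ha1, rfl⟩ := mem_toZFSet_iff.1 ha
    exact ⟨(succ a).toZFSet, toZFSet_mem_toZFSet_iff.2 (h.succ_lt ha1),
      toZFSet_mem_toZFSet_iff.2 (lt_succ a)⟩
  · rintro ⟨⟨a, ha, -⟩, h⟩
    obtain ⟨a, ha1, rfl⟩ := mem_toZFSet_iff.1 ha
    refine ⟨fun hm => ?_, isSuccPrelimit_of_succ_lt fun a ha => ?_⟩
    · exact absurd ha1 (not_lt.2 ((isMin_iff_eq_bot.1 hm).le.trans bot_le))
    · obtain ⟨b, hb, hab⟩ := h a.toZFSet (toZFSet_mem_toZFSet_iff.2 ha)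
      obtain ⟨b, hb1, rfl⟩ := mem_toZFSet_iff.1 hb
      exact (succ_le_of_lt (toZFSet_mem_toZFSet_iff.1 hab)).trans_lt hb1

/-- `r` is a limit ordinal at which the class of `x` is positive and the number of the positive
classes is small -/
def Qz (δ μ n : Ordinal.{u}) (F x : ZFSet.{u}) (r : Ordinal.{u}) : Prop :=
  IsSuccLimit r ∧ PcV μ r F x n ∧ CnV δ μ r F n

theorem dz_qz (h1 : T_LAV.{u}) (h2 : T_LCV.{u}) (δ μ n : Ordinal.{u}) {F : ZFSet.{u}}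
    (hF : OD F) : DZ.{u} fun v => (v 0).IsOrdinal ∧ Qz δ μ n F (v 1) (v 0).rank := by
  have h3 : DZ.{u} fun v => μ.toZFSet.IsOrdinal ∧ (v 0).IsOrdinal ∧ n.toZFSet.IsOrdinal ∧
      PcV μ.toZFSet.rank (v 0).rank F (v 1) n.toZFSet.rank := by
    refine DZ.od (R := fun m v => m.IsOrdinal ∧ (v 0).IsOrdinal ∧ n.toZFSet.IsOrdinal ∧
      PcV m.rank (v 0).rank F (v 1) n.toZFSet.rank) (OD.ordinal μ) ?_
    refine DZ.od (R := fun k v => (v 0).IsOrdinal ∧ (v 1).IsOrdinal ∧ k.IsOrdinal ∧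
      PcV (v 0).rank (v 1).rank F (v 2) k.rank) (OD.ordinal n) ?_
    refine DZ.od (R := fun f v => (v 1).IsOrdinal ∧ (v 2).IsOrdinal ∧ (v 0).IsOrdinal ∧
      PcV (v 1).rank (v 2).rank f (v 3) (v 0).rank) hF ?_
    refine (h1.2.2.dz.ren fun n => if n = 0 then 2 else if n = 1 then 3 else if n = 2 then 0 else
      if n = 3 then 4 else 1).congr fun v => ?_
    simp
  have h4 : DZ.{u} fun v => μ.toZFSet.IsOrdinal ∧ (v 0).IsOrdinal ∧ n.toZFSet.IsOrdinal ∧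
      δ.toZFSet.IsOrdinal ∧ CnV δ.toZFSet.rank μ.toZFSet.rank (v 0).rank F n.toZFSet.rank := by
    refine DZ.od (R := fun m v => m.IsOrdinal ∧ (v 0).IsOrdinal ∧ n.toZFSet.IsOrdinal ∧
      δ.toZFSet.IsOrdinal ∧ CnV δ.toZFSet.rank m.rank (v 0).rank F n.toZFSet.rank)
      (OD.ordinal μ) ?_
    refine DZ.od (R := fun k v => (v 0).IsOrdinal ∧ (v 1).IsOrdinal ∧ k.IsOrdinal ∧
      δ.toZFSet.IsOrdinal ∧ CnV δ.toZFSet.rank (v 0).rank (v 1).rank F k.rank)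
      (OD.ordinal n) ?_
    refine DZ.od (R := fun d v => (v 1).IsOrdinal ∧ (v 2).IsOrdinal ∧ (v 0).IsOrdinal ∧
      d.IsOrdinal ∧ CnV d.rank (v 1).rank (v 2).rank F (v 0).rank) (OD.ordinal δ) ?_
    refine DZ.od (R := fun f v => (v 2).IsOrdinal ∧ (v 3).IsOrdinal ∧ (v 1).IsOrdinal ∧
      (v 0).IsOrdinal ∧ CnV (v 0).rank (v 2).rank (v 3).rank f (v 1).rank) hF ?_
    refine (h2.dz.ren fun n => if n = 0 then 3 else if n = 1 then 4 else if n = 2 then 0 else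
      if n = 3 then 2 else 1).congr fun v => ?_
    simp
  refine (dz_lim.and (h3.and h4)).congr fun v => ?_
  rw [rank_toZFSet, rank_toZFSet, rank_toZFSet]
  have e1 := ZFSet.isOrdinal_toZFSet μ
  have e2 := ZFSet.isOrdinal_toZFSet n
  have e3 := ZFSet.isOrdinal_toZFSet δ
  unfold Qz
  tauto

/-- the function `q` -/
noncomputable def fq (δ μ n B : Ordinal.{u}) (F : ZFSet.{u}) : ZFSet.{u} :=
  ZFSet.sep (fun t => ∃ x r, t = ZFSet.pair x r ∧ (r.IsOrdinal ∧ Qz δ μ n F x r.rank) ∧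
    ∀ s ∈ r, ¬ (s.IsOrdinal ∧ Qz δ μ n F x s.rank)) (V_ B)

theorem od_fq (h1 : T_LAV.{u}) (h2 : T_LCV.{u}) (δ μ n B : Ordinal.{u}) {F : ZFSet.{u}}
    (hF : OD F) : OD (fq δ μ n B F) := by
  have h3 := dz_qz h1 h2 δ μ n hF
  refine Pool.Agent.H45.NF.od_sep (NF.od_V _) ?_
  refine DZ.ex (R := fun x v => ∃ r, v 0 = ZFSet.pair x r ∧
    (r.IsOrdinal ∧ Qz δ μ n F x r.rank) ∧ ∀ s ∈ r, ¬ (s.IsOrdinal ∧ Qz δ μ n F x s.rank)) ?_
  refine DZ.ex (R := fun r v => v 1 = ZFSet.pair (v 0) r ∧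
    (r.IsOrdinal ∧ Qz δ μ n F (v 0) r.rank) ∧
      ∀ s ∈ r, ¬ (s.IsOrdinal ∧ Qz δ μ n F (v 0) s.rank)) ?_
  refine (loc_pair 2 1 0).dz.and (DZ.and ?_ ?_)
  · exact h3.ren fun n => n
  · refine DZ.allMem (R := fun s v => ¬ (s.IsOrdinal ∧ Qz δ μ n F (v 1) s.rank)) 0 ?_
    exact DZ.not (h3.ren fun n => if n = 0 then 0 else 2)

theorem mem_fq {δ μ n B : Ordinal.{u}} {F x : ZFSet.{u}} {r : Ordinal.{u}} :
    ZFSet.pair x r.toZFSet ∈ fq δ μ n B F ↔ ZFSet.pair x r.toZFSet ∈ V_ B ∧ Qz δ μ n F x r ∧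
      ∀ s < r, ¬ Qz δ μ n F x s := by
  unfold fq
  rw [ZFSet.mem_sep]
  refine and_congr_right fun _ => ?_
  constructor
  · rintro ⟨x', r', he, ⟨h1, h2⟩, h3⟩
    obtain ⟨rfl, rfl⟩ := ZFSet.pair_injective he
    rw [rank_toZFSet] at h2
    refine ⟨h2, fun s hs hq => h3 s.toZFSet (toZFSet_mem_toZFSet_iff.2 hs)
      ⟨ZFSet.isOrdinal_toZFSet _, ?_⟩⟩
    rwa [rank_toZFSet]
  · rintro ⟨h1, h2⟩
    refine ⟨x, r.toZFSet, rfl, ⟨ZFSet.isOrdinal_toZFSet _, by rwa [rank_toZFSet]⟩,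
      fun s hs hq => ?_⟩
    obtain ⟨s, hs1, rfl⟩ := mem_toZFSet_iff.1 hs
    rw [rank_toZFSet] at hq
    exact h2 s hs1 hq.2

theorem fun_fq {δ μ n B : Ordinal.{u}} {F : ZFSet.{u}} : ∀ x y z,
    ZFSet.pair x y ∈ fq δ μ n B F → ZFSet.pair x z ∈ fq δ μ n B F → y = z := by
  have h0 : ∀ x y, ZFSet.pair x y ∈ fq δ μ n B F → ∃ r : Ordinal.{u}, y = r.toZFSet := by
    intro x y h
    unfold fq at h
    rw [ZFSet.mem_sep] at h
    obtain ⟨-, x', r', he, ⟨h1, -⟩, -⟩ := h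
    obtain ⟨rfl, rfl⟩ := ZFSet.pair_injective he
    exact ord_of h1
  intro x y z hy hz
  obtain ⟨r, rfl⟩ := h0 _ _ hy
  obtain ⟨s, rfl⟩ := h0 _ _ hz
  rw [mem_fq] at hy hz
  rcases lt_trichotomy r s with h | h | h
  · exact absurd hy.2.1 (hz.2.2 r h)
  · rw [h]
  · exact absurd hz.2.1 (hy.2.2 s h)

theorem pf_LCB (h1 : T_LAV.{u}) (h2 : T_LCV.{u}) (h3 : T_LCR2.{u}) : T_LCB.{u} := by
  intro δ hext hA K hK hδK μ hμδ hωμ F hF n hn hHn
  obtain ⟨D, hD, hDr, hDs, hD0⟩ : ∃ D : Cardinal.{u}, δ = D.ord ∧ D.IsRegular ∧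
      D.IsStrongLimit ∧ ℵ₀ < D := by
    obtain ⟨η, -, θ, j, h⟩ := HD.All.xa δ hext 0
    exact HD.All.xb δ η θ j h
  have hω : ω < δ := by
    rw [hD, ← Cardinal.ord_aleph0]
    exact Cardinal.ord_lt_ord.2 hD0
  have hK0 : ℵ₀ < K := by
    rw [hD] at hδK
    exact hD0.trans (Cardinal.ord_lt_ord.1 hδK)
  have hKl : IsSuccLimit K.ord := Cardinal.isSuccLimit_ord hK0.le
  obtain ⟨β, hβ⟩ := HD.All.xc _ hF
  obtain ⟨η, hη, θ, j, h⟩ := HD.All.xa δ hext (max β K.ord)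
  have hβη : β < η := lt_of_le_of_lt (le_max_left _ _) hη
  have hKη : K.ord < η := lt_of_le_of_lt (le_max_right _ _) hη
  obtain ⟨hFη, -⟩ := hβ δ η θ j h hβη
  obtain ⟨ρ, hr1, hr2⟩ := Pool.Agent.H4.PRK.TWO_sup h hK hKη
  have hrefl := h3 δ η θ j K μ ρ F ⟨h, hK, hω, hδK, hKη, hωμ, hμδ, hFη, hr1, hr2⟩ n hn hHn
  have hcl : ∀ y, PcV μ K.ord F y n → ∃ r < K.ord, Qz δ μ n F y r ∧ ∀ s < r,
      ¬ Qz δ μ n F y s := by
    intro y hy
    obtain ⟨x, hx, hxy⟩ := hy univ (clb_univ hKl)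
    have hxη : x ∈ V_ η := mem_V_of_sub (Pool.Agent.H97.PRK.sms_sub hx) (Gd.ord.2 hKη)
    obtain ⟨r, hr, hl, hp, hc⟩ := hrefl x hxη (pcv_imp (agv_symm hxy) hy)
    have hq : Qz δ μ n F y r := ⟨hl, pcv_imp hxy hp, hc⟩
    have hq' : r ∈ {r | Qz δ μ n F y r} := hq
    have hex : {r | Qz δ μ n F y r}.Nonempty := ⟨r, hq'⟩
    refine ⟨sInf {r | Qz δ μ n F y r}, (csInf_le' hq').trans_lt hr, csInf_mem hex,
      fun s hs hqs => ?_⟩
    have h5 : s ∈ {r | Qz δ μ n F y r} := hqs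
    exact absurd (csInf_le' h5) (not_le.2 hs)
  choose! q hqK hq1 hq2 using hcl
  set B : Ordinal.{u} := K.ord + ω + ω with hB
  have hBg : Gd B := by
    refine ⟨Ordinal.isSuccLimit_add _ Ordinal.isSuccLimit_omega0, ?_⟩
    calc (ω : Ordinal.{u}) ≤ K.ord + ω := le_add_self
      _ < K.ord + ω + ω := by
        have h1 : (0 : Ordinal.{u}) < ω := Ordinal.omega0_pos
        exact lt_add_of_pos_right _ h1
  have hKB : K.ord < B := by
    have h1 : (0 : Ordinal.{u}) < ω := Ordinal.omega0_pos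
    exact (lt_add_of_pos_right _ h1).trans_le le_self_add
  obtain ⟨C, hC, τ1, hτ1, e, he⟩ := Pool.Agent.H97.PRK.a_RBM hext hA hK hδK μ hμδ
    (fq δ μ n B F) (od_fq h1 h2 δ μ n B hF) fun_fq
  have hqe : ∀ y, PcV μ K.ord F y n → ∃ k < τ1, e k = q y := by
    intro y hy
    have hC2 : Clb K.ord (C ∩ {a | q y < a}) := by
      refine Pool.Agent.H54.CL.clb_inter hK0 hK hC ⟨fun a ha => ?_, fun α hα h0 hu => ?_⟩
      · refine ⟨succ (max a (q y)), hKl.succ_lt (max_lt ha (hqK y hy)), ?_, ?_⟩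
        · exact lt_succ_of_le (le_max_left _ _)
        · show q y < succ (max a (q y))
          exact lt_succ_of_le (le_max_right _ _)
      · obtain ⟨b, hb, -, hbq⟩ := hu 0 h0
        exact lt_trans hbq hb
    obtain ⟨x, hx, hxy⟩ := hy _ hC2
    refine he (q y) ⟨x, Pool.Agent.H97.PRK.sms_cl inter_subset_left hx, ?_, fun a ha => ?_⟩
    · rw [mem_fq]
      refine ⟨hBg.pair (mem_V_of_sub (Pool.Agent.H97.PRK.sms_sub hx) (Gd.ord.2 hKB))
        (Gd.ord.2 ((hqK y hy).trans hKB)), ?_, fun s hs hqs => hq2 y hy s hs ?_⟩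
      · obtain ⟨a1, a2, a3⟩ := hq1 y hy
        exact ⟨a1, pcv_imp (agv_symm hxy) a2, a3⟩
      · obtain ⟨a1, a2, a3⟩ := hqs
        exact ⟨a1, pcv_imp hxy a2, a3⟩
    · obtain ⟨b, -, hb, -, hbe⟩ := hx.mem _ ha
      rw [toZFSet_injective hbe]
      exact hb.2
  -- the classes at the values of `q`
  have hcn : ∀ k : Ordinal.{u}, ∃ τ < δ, ∃ g : Ordinal.{u} → ZFSet.{u}, ∀ y,
      PcV μ K.ord F y n → e k = q y → ∃ i < τ, AgV F y (g i) n := by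
    intro k
    by_cases hk : ∃ y, PcV μ K.ord F y n ∧ e k = q y
    · obtain ⟨y0, hy0, hk0⟩ := hk
      obtain ⟨-, -, τ, hτ, g, hg⟩ := hq1 y0 hy0
      refine ⟨τ, hτ, g, fun y hy hky => ?_⟩
      obtain ⟨a1, a2, -⟩ := hq1 y hy
      obtain ⟨x, hx, hxy⟩ := a2 univ (clb_univ a1)
      obtain ⟨i, hi, hgi⟩ := hg x (by
        rw [← hk0, hky]
        exact Pool.Agent.H97.PRK.sms_sub hx) (by
        rw [← hk0, hky]
        exact pcv_imp (agv_symm hxy) a2)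
      exact ⟨i, hi, agv_trans (agv_symm hxy) hgi⟩
    · refine ⟨0, Ordinal.omega0_pos.trans hω, fun _ => ∅, fun y hy hky => ?_⟩
      exact absurd ⟨y, hy, hky⟩ hk
  choose τ2 hτ2 g2 hg2 using hcn
  obtain ⟨ν, hν, g, hg⟩ := hHn
  -- null part
  have hNU : ∀ R : ZFSet.{u} → Prop, (∀ x, R x → ∀ i < ν.ord, AgV F x (g i) n →
      ¬ PcV μ K.ord F (g i) n) → ¬ PosX μ K.ord R := by
    intro R hR hpos
    have hcard : #(Option (Iio ν.ord)) < Cardinal.lift.{u + 1} K := by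
      rw [Cardinal.mk_option, Cardinal.mk_Iio_ordinal, Cardinal.card_ord]
      refine Cardinal.add_lt_of_lt ?_ (Cardinal.lift_lt.2 hν) ?_
      · rw [Cardinal.aleph0_le_lift]
        exact hK0.le
      · refine lt_of_lt_of_le Cardinal.one_lt_aleph0 ?_
        rw [Cardinal.aleph0_le_lift]
        exact hK0.le
    refine Pool.Agent.H97.PRK.a_NU1 μ K hK hK0 (Option (Iio ν.ord))
      (fun o x => match o with
        | none => ∀ i < ν.ord, ¬ AgV F x (g i) n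
        | some i => ¬ PcV μ K.ord F (g i.1) n ∧ AgV F x (g i.1) n) hcard ?_ ?_
    · intro o
      cases o with
      | none => exact hg
      | some i =>
        intro hp
        obtain ⟨-, -, h5, -⟩ := hp univ (clb_univ hKl)
        exact h5 (posx_mono hp fun x hx => hx.2)
    · refine posx_mono hpos fun x hx => ?_
      by_cases h5 : ∃ i, i < ν.ord ∧ AgV F x (g i) n
      · obtain ⟨i, hi, hxi⟩ := h5
        exact ⟨some ⟨i, hi⟩, hR x hx i hi hxi, hxi⟩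
      · refine ⟨none, fun i hi hxi => h5 ⟨i, hi, hxi⟩⟩
  by_cases hex : ∃ y0, PcV μ K.ord F y0 n
  swap
  · refine ⟨0, Ordinal.omega0_pos.trans hω, fun _ => ∅, fun i hi => absurd hi not_lt_zero,
      hNU _ fun x _ i _ _ hp => hex ⟨_, hp⟩⟩
  obtain ⟨y0, hy0⟩ := hex
  -- the index set
  have hW : #(Σ k : Iio τ1, Iio (τ2 k.1)) < Cardinal.lift.{u + 1} D := by
    rw [Cardinal.mk_sigma]
    refine Cardinal.sum_lt_of_isRegular ?_ ?_ fun k => ?_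
    · exact hDr.lift
    · rw [Cardinal.mk_Iio_ordinal, Cardinal.lift_lt]
      rw [hD] at hτ1
      exact Cardinal.lt_ord.1 hτ1
    · rw [Cardinal.mk_Iio_ordinal, Cardinal.lift_lt]
      have := hτ2 k.1
      rw [hD] at this
      exact Cardinal.lt_ord.1 this
  obtain ⟨c, hc, hcW⟩ := Cardinal.lt_lift_iff.1 hW
  have hcard : #(Iio c.ord) = #(Σ k : Iio τ1, Iio (τ2 k.1)) := by
    rw [Cardinal.mk_Iio_ordinal, Cardinal.card_ord, hcW]
  obtain ⟨φ⟩ := Cardinal.eq.1 hcard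
  classical
  refine ⟨c.ord, ?_, fun i => if hi : i < c.ord then
    (if PcV μ K.ord F (g2 (φ ⟨i, hi⟩).1.1 (φ ⟨i, hi⟩).2.1) n then
      g2 (φ ⟨i, hi⟩).1.1 (φ ⟨i, hi⟩).2.1 else y0) else y0, fun i hi => ?_,
    hNU _ fun x hx i hi hxi hp => ?_⟩
  · rw [hD]
    exact Cardinal.ord_lt_ord.2 hc
  · simp only [dif_pos hi]
    split_ifs with h5
    · exact h5
    · exact hy0
  · obtain ⟨k, hk, hkq⟩ := hqe _ hp
    obtain ⟨i', hi', hgi⟩ := hg2 k _ hp hkq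
    set w : Σ k : Iio τ1, Iio (τ2 k.1) := ⟨⟨k, hk⟩, ⟨i', hi'⟩⟩ with hw
    have h7 : (φ.symm w).1 < c.ord := (φ.symm w).2
    have h6 := hx (φ.symm w).1 h7
    have h8 : PcV μ K.ord F (g2 w.1.1 w.2.1) n := pcv_imp hgi hp
    have h9 : φ ⟨(φ.symm w).1, h7⟩ = w := φ.apply_symm_apply w
    simp only [dif_pos h7] at h6
    rw [h9, if_pos h8] at h6
    exact h6 (agv_trans hxi hgi)

end Pool.Agent.H75.HV
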